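import Pool.Agent.helper28.LT.Defs
import Pool.Agent.helper65.FT.E3

set_option autoImplicit false

/-!
# Module JA: a lower bound for the number of points near the integers

The minorant is `(cos 2πx - cos 2πδ) |∑ sin(πj/H) e(jx)|²`.
-/

namespace Pool.Agent.helper28.LT

open Finset Pool.Agent.helper3.FT

lemma JA_e_zero : e 0 = 1 := by simpa using E3_e_intCast 0

lemma JA_two_cos (x : ℝ) : ((2 * Real.cos (2 * Real.pi * x) : ℝ) : ℂ) = e x + e (-x) := by
  have h1 : e (-x) = (starRingEnd ℂ) (e x) := (E3_e_neg_conj x).symm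
  rw [h1, Complex.add_conj, E3_e_re]

lemma JA_geom (θ x : ℝ) (n : ℕ) :
    ((2 * Real.cos (2 * Real.pi * x) - 2 * Real.cos θ : ℝ) : ℂ) *
      ∑ j ∈ range (n + 1), ((Real.sin (j * θ) : ℝ) : ℂ) * e (j * x) =
    ((Real.sin (n * θ) : ℝ) : ℂ) * e (((n + 1 : ℕ) : ℝ) * x) -
      ((Real.sin (((n + 1 : ℕ) : ℝ) * θ) : ℝ) : ℂ) * e (n * x) + ((Real.sin θ : ℝ) : ℂ) := by
  induction n with
  | zero =>
    simp [JA_e_zero]
  | succ n ih =>
    rw [sum_range_succ, mul_add, ih]
    have hs : Real.sin (((n + 1 + 1 : ℕ) : ℝ) * θ) =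
        2 * Real.cos θ * Real.sin (((n + 1 : ℕ) : ℝ) * θ) - Real.sin (n * θ) := by
      have e1 : ((n + 1 + 1 : ℕ) : ℝ) * θ = ((n + 1 : ℕ) : ℝ) * θ + θ := by push_cast; ring
      have e2 : (n : ℝ) * θ = ((n + 1 : ℕ) : ℝ) * θ - θ := by push_cast; ring
      rw [e1, e2, Real.sin_add, Real.sin_sub]; ring
    have h3 : e (((n + 1 + 1 : ℕ) : ℝ) * x) = e (((n + 1 : ℕ) : ℝ) * x) * e x := by
      rw [← E3_e_add]; congr 1; push_cast; ring
    have h4 : e (n * x) = e (((n + 1 : ℕ) : ℝ) * x) * e (-x) := by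
      rw [← E3_e_add]; congr 1; push_cast; ring
    have h5 : ((2 * Real.cos (2 * Real.pi * x) - 2 * Real.cos θ : ℝ) : ℂ) =
        e x + e (-x) - 2 * ((Real.cos θ : ℝ) : ℂ) := by
      rw [← JA_two_cos]; push_cast; ring
    rw [h5, hs, h3, h4]
    push_cast
    ring

lemma JA_sq_sum (H : ℕ) (hH : 2 ≤ H) :
    ∑ j ∈ range H, Real.sin (j * (Real.pi / H)) ^ 2 = (H : ℝ) / 2 := by
  have hH0 : (0 : ℝ) < H := by positivity
  set θ := Real.pi / H with hθ
  have hHθ : (H : ℝ) * θ = Real.pi := by rw [hθ]; field_simp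
  have hs : 0 < Real.sin θ := by
    apply Real.sin_pos_of_pos_of_lt_pi
    · rw [hθ]; positivity
    · rw [hθ, div_lt_iff₀ hH0]
      have : (2 : ℝ) ≤ H := by exact_mod_cast hH
      nlinarith [Real.pi_pos]
  have h1 : ∀ n : ℕ, ∑ j ∈ range n, (2 * Real.sin θ * Real.cos (2 * (j * θ))) =
      Real.sin (2 * (n * θ) - θ) + Real.sin θ := by
    intro n
    induction n with
    | zero => simp [Real.sin_neg]
    | succ n ih =>
      rw [sum_range_succ, ih]
      have e1 : 2 * (((n + 1 : ℕ) : ℝ) * θ) - θ = 2 * (n * θ) + θ := by push_cast; ring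
      rw [e1, Real.sin_add, Real.sin_sub]; ring
  have h2 := h1 H
  rw [hHθ, Real.sin_sub, Real.sin_two_pi, Real.cos_two_pi, ← mul_sum] at h2
  have h3 : ∑ j ∈ range H, Real.cos (2 * (j * θ)) = 0 := by
    have : 2 * Real.sin θ * ∑ j ∈ range H, Real.cos (2 * (j * θ)) = 0 := by linarith
    rcases mul_eq_zero.1 this with h | h
    · linarith
    · exact h
  have h4 : ∀ j ∈ range H, Real.sin (j * θ) ^ 2 = 1 / 2 - Real.cos (2 * (j * θ)) / 2 := by
    intro j _
    rw [Real.sin_sq_eq_half_sub]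
  rw [sum_congr rfl h4, sum_sub_distrib, ← sum_div _ (fun j : ℕ => Real.cos (2 * (j * θ))), h3]
  simp; ring

lemma JA_cos_nd (x : ℝ) : Real.cos (2 * Real.pi * x) = Real.cos (2 * Real.pi * nd x) := by
  unfold nd
  have a1 : 2 * Real.pi * |x - round x| = |2 * Real.pi * (x - round x)| := by
    rw [abs_mul, abs_of_pos Real.two_pi_pos]
  rw [a1, Real.cos_abs]
  have a2 : 2 * Real.pi * (x - round x)
      = 2 * Real.pi * x - ((round x : ℤ) : ℝ) * (2 * Real.pi) := by ring
  rw [a2, Real.cos_sub_int_mul_two_pi]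

/-- JA -/
theorem jackson {ι : Type} (t : Finset ι) (x : ι → ℝ) (δ : ℝ) (H : ℕ) (h0 : 0 < δ)
    (h1 : δ ≤ 1 / 2) (hH : 1 ≤ H * δ) :
    (t.card : ℝ) / (2 * H) - 4 / H * ∑ l ∈ Ico 1 (2 * H), ‖∑ i ∈ t, e (l * x i)‖ ≤
      ((t.filter (fun i => nd (x i) ≤ δ)).card : ℝ) := by
  classical
  have hHr : (2 : ℝ) ≤ H := by
    by_contra hc
    push Not at hc
    nlinarith
  have hH2 : 2 ≤ H := by exact_mod_cast hHr
  have hH0 : (0 : ℝ) < H := by linarith
  set θ := Real.pi / H with hθ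
  have hHθ : (H : ℝ) * θ = Real.pi := by rw [hθ]; field_simp
  have hθ0 : 0 < θ := by rw [hθ]; positivity
  have hθ1 : θ ≤ Real.pi / 2 := by
    rw [hθ]
    exact div_le_div_of_nonneg_left Real.pi_pos.le (by norm_num) hHr
  have hθδ : θ ≤ Real.pi * δ := by
    have : θ = Real.pi * (1 / H) := by rw [hθ]; ring
    rw [this]
    refine mul_le_mul_of_nonneg_left ?_ Real.pi_pos.le
    rw [div_le_iff₀ hH0]; linarith
  set w : ℕ → ℝ := fun j => Real.sin (j * θ) with hw
  have hw0 : ∀ j ∈ range H, 0 ≤ w j := by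
    intro j hj
    apply Real.sin_nonneg_of_nonneg_of_le_pi (by positivity)
    have : (j : ℝ) ≤ H := by exact_mod_cast (mem_range.1 hj).le
    calc (j : ℝ) * θ ≤ H * θ := by gcongr
      _ = Real.pi := hHθ
  have hw1 : ∀ j, w j ≤ 1 := fun j => Real.sin_le_one _
  have hwz : w 0 = 0 := by simp [hw]
  have hsq : ∑ j ∈ range H, w j ^ 2 = (H : ℝ) / 2 := JA_sq_sum H hH2
  set S : ℝ → ℂ := fun y => ∑ j ∈ range H, (w j : ℂ) * e (j * y) with hS
  set c : ℝ := 1 - Real.cos (2 * Real.pi * δ) with hc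
  set κ : ℝ := Real.cos θ - Real.cos (2 * Real.pi * δ) with hκ
  set g : ℕ → ℝ := fun j => ‖∑ i ∈ t, e (j * x i)‖ with hg
  have hg0 : ∀ j, 0 ≤ g j := fun j => norm_nonneg _
  set 𝓔 : ℝ := ∑ l ∈ Ico 1 H, g l with h𝓔
  have h𝓔0 : 0 ≤ 𝓔 := sum_nonneg (fun j _ => hg0 j)
  -- trigonometric facts
  have hcos2 : Real.cos (2 * Real.pi * δ) ≤ Real.cos (2 * θ) := by
    apply Real.cos_le_cos_of_nonneg_of_le_pi
    · positivity
    · nlinarith [Real.pi_pos]
    · linarith
  have hcθ0 : 0 ≤ Real.cos θ := Real.cos_nonneg_of_mem_Icc ⟨by linarith, hθ1⟩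
  have hcθ1 : Real.cos θ ≤ 1 := Real.cos_le_one _
  have hsθ : 0 < Real.sin θ := Real.sin_pos_of_pos_of_lt_pi hθ0 (by linarith [Real.pi_pos])
  have hsc : Real.sin θ ^ 2 + Real.cos θ ^ 2 = 1 := Real.sin_sq_add_cos_sq θ
  have hc2 : 2 * Real.sin θ ^ 2 ≤ c := by
    rw [Real.cos_two_mul] at hcos2
    rw [hc]; nlinarith
  have hc0 : 0 < c := lt_of_lt_of_le (by positivity) hc2
  have hκc : c / 2 ≤ κ := by
    rw [Real.cos_two_mul] at hcos2
    rw [hκ, hc]; nlinarith
  have hκc' : κ ≤ c := by rw [hκ, hc]; linarith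
  have hsH : 2 / H ≤ Real.sin θ := by
    have := Real.mul_le_sin hθ0.le hθ1
    have e1 : 2 / Real.pi * θ = 2 / H := by
      rw [hθ]; field_simp
    linarith
  -- the identity
  have hid : ∀ y : ℝ, (2 * Real.cos (2 * Real.pi * y) - 2 * Real.cos θ) * ‖S y‖ ^ 2 =
      Real.sin θ * ((1 + e (H * y)) * (starRingEnd ℂ) (S y)).re := by
    intro y
    obtain ⟨n, rfl⟩ : ∃ n, H = n + 1 := ⟨H - 1, by omega⟩
    have h := JA_geom θ y n
    have e1 : Real.sin (n * θ) = Real.sin θ := by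
      have : (n : ℝ) * θ = Real.pi - θ := by
        push_cast at hHθ; linarith
      rw [this, Real.sin_pi_sub]
    have e2 : Real.sin (((n + 1 : ℕ) : ℝ) * θ) = 0 := by
      rw [hHθ, Real.sin_pi]
    rw [e1, e2] at h
    have h' : ((2 * Real.cos (2 * Real.pi * y) - 2 * Real.cos θ : ℝ) : ℂ) * S y =
        ((Real.sin θ : ℝ) : ℂ) * (1 + e (((n + 1 : ℕ) : ℝ) * y)) := by
      rw [hS]; simp only [hw]
      rw [h]; push_cast; ring
    have h3 : (((2 * Real.cos (2 * Real.pi * y) - 2 * Real.cos θ : ℝ) : ℂ) * S y *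
        (starRingEnd ℂ) (S y)).re = (((Real.sin θ : ℝ) : ℂ) * (1 + e (((n + 1 : ℕ) : ℝ) * y)) *
        (starRingEnd ℂ) (S y)).re := by rw [h']
    rw [mul_assoc _ (S y), Complex.mul_conj', Complex.re_ofReal_mul,
      mul_assoc _ (1 + e (((n + 1 : ℕ) : ℝ) * y)), Complex.re_ofReal_mul] at h3
    rw [← h3]
    norm_cast
  -- lower bound for the linear part
  have hlin : -(2 * 𝓔) ≤ ∑ i ∈ t, ((1 + e (H * x i)) * (starRingEnd ℂ) (S (x i))).re := by
    have e1 : ∑ i ∈ t, ((1 + e (H * x i)) * (starRingEnd ℂ) (S (x i))).re =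
        ∑ j ∈ range H, w j * ((∑ i ∈ t, e (-(j * x i))).re +
          (∑ i ∈ t, e (((H - j : ℕ) : ℝ) * x i)).re) := by
      simp only [Complex.re_sum, ← sum_add_distrib]
      simp only [mul_sum]
      rw [sum_comm]
      refine sum_congr rfl (fun i _ => ?_)
      simp only [hS]
      rw [map_sum, mul_sum, Complex.re_sum]
      refine sum_congr rfl (fun j hj => ?_)
      rw [map_mul, Complex.conj_ofReal, E3_e_neg_conj]
      have e2 : e (((H - j : ℕ) : ℝ) * x i) = e (H * x i) * e (-(j * x i)) := by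
        rw [← E3_e_add]
        congr 1
        rw [Nat.cast_sub (mem_range.1 hj).le]; ring
      rw [e2]
      have e3 : (1 + e (H * x i)) * ((w j : ℂ) * e (-(j * x i))) =
          (w j : ℂ) * (e (-(j * x i)) + e (H * x i) * e (-(j * x i))) := by ring
      rw [e3, Complex.re_ofReal_mul, Complex.add_re]
    rw [e1]
    have e4 : ∀ j ∈ range H, -(if j = 0 then 0 else g j + g (H - j)) ≤
        w j * ((∑ i ∈ t, e (-(j * x i))).re + (∑ i ∈ t, e (((H - j : ℕ) : ℝ) * x i)).re) := by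
      intro j hj
      split_ifs with hj0
      · subst hj0; rw [hwz]; simp
      · have b1 : -(g j) ≤ (∑ i ∈ t, e (-(j * x i))).re := by
          have : ∑ i ∈ t, e (-(j * x i)) = (starRingEnd ℂ) (∑ i ∈ t, e (j * x i)) := by
            rw [map_sum]
            exact sum_congr rfl (fun i _ => (E3_e_neg_conj _).symm)
          rw [this, Complex.conj_re]
          have := Complex.abs_re_le_norm (∑ i ∈ t, e (j * x i))
          exact (abs_le.1 this).1
        have b2 : -(g (H - j)) ≤ (∑ i ∈ t, e (((H - j : ℕ) : ℝ) * x i)).re := by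
          have := Complex.abs_re_le_norm (∑ i ∈ t, e (((H - j : ℕ) : ℝ) * x i))
          exact (abs_le.1 this).1
        have b3 := hw0 j hj
        have b4 := hw1 j
        have b5 : 0 ≤ g j + g (H - j) := add_nonneg (hg0 _) (hg0 _)
        nlinarith
    refine le_trans ?_ (sum_le_sum e4)
    rw [sum_neg_distrib, neg_le_neg_iff]
    have e5 : ∑ j ∈ range H, (if j = 0 then 0 else g j + g (H - j)) =
        ∑ j ∈ Ico 1 H, (g j + g (H - j)) := by
      rw [range_eq_Ico, sum_eq_sum_Ico_succ_bot (by omega)]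
      simp only [if_true, zero_add]
      refine sum_congr rfl (fun j hj => ?_)
      rw [mem_Ico] at hj
      rw [if_neg (by omega)]
    rw [e5, sum_add_distrib]
    have e6 : ∑ j ∈ Ico 1 H, g (H - j) = 𝓔 := by
      rw [h𝓔]
      refine sum_bij' (fun j _ => H - j) (fun j _ => H - j) ?_ ?_ ?_ ?_ ?_
      · intro j hj; rw [mem_Ico] at hj ⊢; omega
      · intro j hj; rw [mem_Ico] at hj ⊢; omega
      · intro j hj; rw [mem_Ico] at hj; omega
      · intro j hj; rw [mem_Ico] at hj; omega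
      · intro j _; rfl
    rw [e6]; linarith
  -- lower bound for the quadratic part
  have hquad : (H : ℝ) / 2 * t.card - (H : ℝ) / 2 * (2 * 𝓔) ≤ ∑ i ∈ t, ‖S (x i)‖ ^ 2 := by
    set g' : ℕ → ℝ := fun j => if j = 0 then 0 else g j with hg'
    have hg'0 : ∀ j, 0 ≤ g' j := by
      intro j; simp only [hg']; split_ifs
      · exact le_rfl
      · exact hg0 j
    have e1 : ∑ i ∈ t, ‖S (x i)‖ ^ 2 =
        ∑ a ∈ range H, ∑ b ∈ range H, w a * w b * (∑ i ∈ t, e (((a : ℤ) - b : ℤ) * x i)).re := by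
      have e2 : ∀ i ∈ t, ‖S (x i)‖ ^ 2 =
          ∑ a ∈ range H, ∑ b ∈ range H, w a * w b * (e (((a : ℤ) - b : ℤ) * x i)).re := by
        intro i _
        have e3 : ((‖S (x i)‖ ^ 2 : ℝ) : ℂ) =
            ∑ a ∈ range H, ∑ b ∈ range H,
              ((w a * w b : ℝ) : ℂ) * e (((a : ℤ) - b : ℤ) * x i) := by
          push_cast
          rw [← Complex.mul_conj', hS]
          simp only
          rw [map_sum, sum_mul_sum]
          refine sum_congr rfl (fun a _ => sum_congr rfl (fun b _ => ?_))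
          rw [map_mul, Complex.conj_ofReal, E3_e_neg_conj]
          have : e (((a : ℝ) - b) * x i) = e (a * x i) * e (-(b * x i)) := by
            rw [← E3_e_add]; congr 1; ring
          rw [this]; ring
        have e4 := congrArg Complex.re e3
        rw [Complex.ofReal_re, Complex.re_sum] at e4
        rw [e4]
        refine sum_congr rfl (fun a _ => ?_)
        rw [Complex.re_sum]
        exact sum_congr rfl (fun b _ => Complex.re_ofReal_mul _ _)
      rw [sum_congr rfl e2, sum_comm]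
      refine sum_congr rfl (fun a _ => ?_)
      rw [sum_comm]
      refine sum_congr rfl (fun b _ => ?_)
      rw [Complex.re_sum, mul_sum]
    have hD : ∀ a b : ℕ, (if a = b then (t.card : ℝ) else 0) - g' ((a : ℤ) - b).natAbs ≤
        (∑ i ∈ t, e (((a : ℤ) - b : ℤ) * x i)).re := by
      intro a b
      split_ifs with hab
      · subst hab
        simp [hg', JA_e_zero]
      · have hne : ((a : ℤ) - b).natAbs ≠ 0 := by omega
        simp only [hg', if_neg hne]
        have hn : ‖∑ i ∈ t, e (((a : ℤ) - b : ℤ) * x i)‖ = g ((a : ℤ) - b).natAbs := by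
          rcases Int.natAbs_eq ((a : ℤ) - b) with h | h
          · simp only [hg]
            conv_lhs => rw [h]
            simp
          · simp only [hg]
            rw [← Complex.norm_conj, map_sum]
            congr 1
            refine sum_congr rfl (fun i _ => ?_)
            rw [E3_e_neg_conj]
            congr 1
            conv_lhs => rw [h]
            push_cast; simp
        have := Complex.abs_re_le_norm (∑ i ∈ t, e (((a : ℤ) - b : ℤ) * x i))
        rw [hn] at this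
        linarith [(abs_le.1 this).1]
    rw [e1]
    have e5 : ∑ a ∈ range H, ∑ b ∈ range H,
        (w a * w b * (if a = b then (t.card : ℝ) else 0) -
          (w a ^ 2 + w b ^ 2) / 2 * g' ((a : ℤ) - b).natAbs) ≤
        ∑ a ∈ range H, ∑ b ∈ range H, w a * w b * (∑ i ∈ t, e (((a : ℤ) - b : ℤ) * x i)).re := by
      refine sum_le_sum (fun a ha => sum_le_sum (fun b hb => ?_))
      have h3 : 0 ≤ w a * w b := mul_nonneg (hw0 a ha) (hw0 b hb)
      have h4 := mul_le_mul_of_nonneg_left (hD a b) h3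
      have h5 : w a * w b * g' ((a : ℤ) - b).natAbs ≤
          (w a ^ 2 + w b ^ 2) / 2 * g' ((a : ℤ) - b).natAbs := by
        apply mul_le_mul_of_nonneg_right _ (hg'0 _)
        nlinarith [sq_nonneg (w a - w b)]
      linarith
    refine le_trans ?_ e5
    simp only [sum_sub_distrib]
    have e6 : ∑ a ∈ range H, ∑ b ∈ range H, w a * w b * (if a = b then (t.card : ℝ) else 0) =
        (H : ℝ) / 2 * t.card := by
      rw [← hsq, sum_mul]
      refine sum_congr rfl (fun a ha => ?_)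
      rw [sum_eq_single a]
      · rw [if_pos rfl]; ring
      · intro b _ hb; rw [if_neg (Ne.symm hb)]; ring
      · intro h; exact absurd ha h
    have e7 : ∑ a ∈ range H, ∑ b ∈ range H, (w a ^ 2 + w b ^ 2) / 2 * g' ((a : ℤ) - b).natAbs ≤
        (H : ℝ) / 2 * (2 * 𝓔) := by
      have f1 : ∑ a ∈ range H, ∑ b ∈ range H, w b ^ 2 * g' ((a : ℤ) - b).natAbs =
          ∑ a ∈ range H, ∑ b ∈ range H, w a ^ 2 * g' ((a : ℤ) - b).natAbs := by
        rw [sum_comm]
        refine sum_congr rfl (fun a _ => sum_congr rfl (fun b _ => ?_))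
        congr 2
        omega
      have f2 : ∑ a ∈ range H, ∑ b ∈ range H,
            (w a ^ 2 + w b ^ 2) / 2 * g' ((a : ℤ) - b).natAbs =
          ∑ a ∈ range H, ∑ b ∈ range H, w a ^ 2 * g' ((a : ℤ) - b).natAbs := by
        have f3 : ∑ a ∈ range H, ∑ b ∈ range H,
            (w a ^ 2 + w b ^ 2) / 2 * g' ((a : ℤ) - b).natAbs =
            (∑ a ∈ range H, ∑ b ∈ range H, w a ^ 2 * g' ((a : ℤ) - b).natAbs +
             ∑ a ∈ range H, ∑ b ∈ range H, w b ^ 2 * g' ((a : ℤ) - b).natAbs) / 2 := by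
          rw [← sum_add_distrib, sum_div]
          refine sum_congr rfl (fun a _ => ?_)
          rw [← sum_add_distrib, sum_div]
          refine sum_congr rfl (fun b _ => ?_)
          ring
        rw [f3, f1]; ring
      rw [f2, ← hsq, sum_mul]
      refine sum_le_sum (fun a ha => ?_)
      rw [← mul_sum]
      refine mul_le_mul_of_nonneg_left ?_ (sq_nonneg _)
      refine (E3_row_le g' hg'0 H a (mem_range.1 ha)).trans ?_
      have f4 : ∑ j ∈ Ico 1 H, g' j = 𝓔 := by
        rw [h𝓔]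
        refine sum_congr rfl (fun j hj => ?_)
        rw [mem_Ico] at hj
        simp only [hg', if_neg (by omega : ¬ j = 0)]
      rw [f4]; simp [hg']
    rw [e6]; linarith
  -- lower bound for the minorant
  have hlow : κ * ((H : ℝ) / 2) * t.card - (Real.sin θ + κ * H) * 𝓔 ≤
      ∑ i ∈ t, (Real.cos (2 * Real.pi * x i) - Real.cos (2 * Real.pi * δ)) * ‖S (x i)‖ ^ 2 := by
    have e1 : ∀ i ∈ t, (Real.cos (2 * Real.pi * x i) - Real.cos (2 * Real.pi * δ)) *
        ‖S (x i)‖ ^ 2 = Real.sin θ / 2 * ((1 + e (H * x i)) * (starRingEnd ℂ) (S (x i))).re +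
          κ * ‖S (x i)‖ ^ 2 := by
      intro i _
      have := hid (x i)
      rw [hκ]; linarith
    rw [sum_congr rfl e1, sum_add_distrib, ← mul_sum, ← mul_sum]
    have h3 := mul_le_mul_of_nonneg_left hlin (by linarith : 0 ≤ Real.sin θ / 2)
    have h4 := mul_le_mul_of_nonneg_left hquad (by linarith : 0 ≤ κ)
    linarith
  -- upper bound for the minorant
  have hSn : ∀ y, ‖S y‖ ^ 2 ≤ (H : ℝ) * (H / 2) := by
    intro y
    have e1 : ‖S y‖ ≤ ∑ j ∈ range H, w j := by
      rw [hS]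
      refine (norm_sum_le _ _).trans (le_of_eq (sum_congr rfl (fun j hj => ?_)))
      rw [norm_mul, Complex.norm_real, Real.norm_of_nonneg (hw0 j hj)]
      have : ‖e (j * y)‖ = 1 := by
        unfold e
        rw [show (2 * Real.pi * Complex.I * ((j * y : ℝ) : ℂ) : ℂ) =
          ((2 * Real.pi * (j * y) : ℝ) : ℂ) * Complex.I by push_cast; ring]
        exact Complex.norm_exp_ofReal_mul_I _
      rw [this, mul_one]
    have e2 : (∑ j ∈ range H, w j) ^ 2 ≤ H * ∑ j ∈ range H, w j ^ 2 := by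
      have := sq_sum_le_card_mul_sum_sq (s := range H) (f := w)
      rwa [card_range] at this
    rw [hsq] at e2
    calc ‖S y‖ ^ 2 ≤ (∑ j ∈ range H, w j) ^ 2 := by gcongr
      _ ≤ _ := e2
  have hup : ∑ i ∈ t, (Real.cos (2 * Real.pi * x i) - Real.cos (2 * Real.pi * δ)) *
      ‖S (x i)‖ ^ 2 ≤ ((t.filter (fun i => nd (x i) ≤ δ)).card : ℝ) * (c * (H * (H / 2))) := by
    rw [← sum_filter_add_sum_filter_not t (fun i => nd (x i) ≤ δ)]
    have u1 : ∑ i ∈ t.filter (fun i => nd (x i) ≤ δ),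
        (Real.cos (2 * Real.pi * x i) - Real.cos (2 * Real.pi * δ)) * ‖S (x i)‖ ^ 2 ≤
        ((t.filter (fun i => nd (x i) ≤ δ)).card : ℝ) * (c * (H * (H / 2))) := by
      rw [← nsmul_eq_mul]
      refine sum_le_card_nsmul _ _ _ (fun i _ => ?_)
      have v1 : Real.cos (2 * Real.pi * x i) - Real.cos (2 * Real.pi * δ) ≤ c := by
        rw [hc]; linarith [Real.cos_le_one (2 * Real.pi * x i)]
      calc (Real.cos (2 * Real.pi * x i) - Real.cos (2 * Real.pi * δ)) * ‖S (x i)‖ ^ 2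
          ≤ c * ‖S (x i)‖ ^ 2 := by gcongr
        _ ≤ c * (H * (H / 2)) := mul_le_mul_of_nonneg_left (hSn _) hc0.le
    have u2 : ∑ i ∈ t.filter (fun i => ¬ nd (x i) ≤ δ),
        (Real.cos (2 * Real.pi * x i) - Real.cos (2 * Real.pi * δ)) * ‖S (x i)‖ ^ 2 ≤ 0 := by
      refine sum_nonpos (fun i hi => ?_)
      have hi' : δ < nd (x i) := not_le.1 (mem_filter.1 hi).2
      have v1 : Real.cos (2 * Real.pi * x i) ≤ Real.cos (2 * Real.pi * δ) := by
        rw [JA_cos_nd]
        have v2 : nd (x i) ≤ 1 / 2 := abs_sub_round (x i)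
        apply Real.cos_le_cos_of_nonneg_of_le_pi
        · positivity
        · nlinarith [Real.pi_pos]
        · nlinarith [Real.pi_pos]
      exact mul_nonpos_of_nonpos_of_nonneg (by linarith) (by positivity)
    linarith
  -- conclusion
  have hmain := hlow.trans hup
  have h𝓔' : 𝓔 ≤ ∑ l ∈ Ico 1 (2 * H), ‖∑ i ∈ t, e (l * x i)‖ := by
    rw [h𝓔]
    refine sum_le_sum_of_subset_of_nonneg ?_ (fun j _ _ => hg0 j)
    intro j hj; rw [mem_Ico] at hj ⊢; omega
  set T := ∑ l ∈ Ico 1 (2 * H), ‖∑ i ∈ t, e (l * x i)‖ with hT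
  have hsc2 : Real.sin θ ≤ c * H := by
    have v1 : 1 ≤ H * Real.sin θ := by
      rw [div_le_iff₀ hH0] at hsH; linarith
    have v2 : Real.sin θ * 1 ≤ Real.sin θ * (H * Real.sin θ) :=
      mul_le_mul_of_nonneg_left v1 hsθ.le
    nlinarith
  have ht0 : (0 : ℝ) ≤ t.card := Nat.cast_nonneg _
  have k1 : c / 2 * ((H : ℝ) / 2) * t.card ≤ κ * ((H : ℝ) / 2) * t.card := by
    have : 0 ≤ (H : ℝ) / 2 * t.card := by positivity
    nlinarith
  have k2 : (Real.sin θ + κ * H) * 𝓔 ≤ (2 * c * H) * T := by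
    have v1 : Real.sin θ + κ * H ≤ 2 * c * H := by nlinarith
    calc (Real.sin θ + κ * H) * 𝓔 ≤ (2 * c * H) * 𝓔 := by gcongr
      _ ≤ (2 * c * H) * T := by gcongr
  have k3 : c * (H * (H / 2)) * ((t.card : ℝ) / (2 * H) - 4 / H * T) ≤
      c * (H * (H / 2)) * ((t.filter (fun i => nd (x i) ≤ δ)).card : ℝ) := by
    have v1 : c * (H * (H / 2)) * ((t.card : ℝ) / (2 * H) - 4 / H * T) =
        c / 2 * ((H : ℝ) / 2) * t.card - (2 * c * H) * T := by
      field_simp
      ring
    rw [v1]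
    linarith
  exact le_of_mul_le_mul_left k3 (by positivity)

end Pool.Agent.helper28.LT
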