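import Pool.Agent.helper9.LT.WC
import Pool.Agent.helper46.LT.FU
import Pool.Agent.helper17.LT.CL
import Pool.Agent.helper63.LT.RE

set_option autoImplicit false

/-!
# Module UP: the upper bound for one value of `q`
-/

namespace Pool.Agent.helper28.LT

open Finset Pool.Agent.helper3.FT Pool.Agent.helper47.RA

/-- the statement of `sum_near` for one `ε` -/
def UP_SN (ε : ℝ) : Prop := ∃ C : ℝ, 1 ≤ C ∧ ∀ κ s q H M' : ℕ, 1 ≤ s → s ≤ κ →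
    1 ≤ q → q ≤ κ → 1 ≤ M' → q * M' ≤ κ ^ 2 * s → κ ^ 2 * s ≤ 2 * q * M' →
    H * s ^ 2 ≤ 300 * q * κ ^ 2 → ∀ r : ℕ × ℕ → ℤ × ℤ × ℤ,
    (∀ p : ℕ × ℕ, 1 ≤ p.1 → 1 ≤ p.2 → Nat.Coprime p.1 p.2 → Nat.Coprime q p.1 →
      ResQ p.1 p.2 q (r p).1 (r p).2.1 (r p).2.2) →
    ∑ p ∈ (pairs (8 * κ) (8 * κ) 1).filter (fun p => Nat.Coprime q p.1),
      ∑ h ∈ Icc 1 H, √(nearN M' (κ ^ 2 * s) r h p) ≤
      C * (κ : ℝ) ^ ε * ((q : ℝ) ^ (3 / 2 : ℝ) * (κ : ℝ) ^ 4 / (s : ℝ) ^ 2 * (1 + √q / s))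

lemma UP_log (ε : ℝ) (hε : 0 < ε) : ∃ C : ℝ, 1 ≤ C ∧ ∀ κ s M : ℕ, 1 ≤ s → s ≤ κ →
    1 ≤ M → M ≤ κ ^ 2 * s → 1 + Real.log M ≤ C * (κ : ℝ) ^ ε := by
  refine ⟨1 + 3 / ε, by linarith [div_pos (by norm_num : (0 : ℝ) < 3) hε], ?_⟩
  intro κ s M hs hsκ hM hMκ
  have hκ : 1 ≤ κ := hs.trans hsκ
  have hκr : (1 : ℝ) ≤ κ := by exact_mod_cast hκ
  have hM0 : (0 : ℝ) < M := by exact_mod_cast hM
  have h1 : (M : ℝ) ≤ (κ : ℝ) ^ 3 := by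
    have : M ≤ κ ^ 3 := hMκ.trans (by
      calc κ ^ 2 * s ≤ κ ^ 2 * κ := Nat.mul_le_mul_left _ hsκ
        _ = κ ^ 3 := by ring)
    exact_mod_cast this
  have h2 : Real.log M ≤ 3 * Real.log κ := by
    have := Real.log_le_log hM0 h1
    rw [Real.log_pow] at this
    push_cast at this
    exact this
  have h3 : Real.log κ ≤ (κ : ℝ) ^ ε / ε := Real.log_le_rpow_div (by positivity) hε
  have h4 : (1 : ℝ) ≤ (κ : ℝ) ^ ε := Real.one_le_rpow hκr hε.le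
  have h5 : 3 * ((κ : ℝ) ^ ε / ε) = 3 / ε * (κ : ℝ) ^ ε := by ring
  linarith

lemma UP_PP {κ q : ℕ} (hq : 1 ≤ q) (hqκ : q ≤ κ) {p : ℕ × ℕ} (hp : p ∈ PP κ) :
    p ∈ (pairs (8 * κ) (8 * κ) 1).filter (fun p => Nat.Coprime q p.1) := by
  unfold PP at hp
  simp only [mem_filter, mem_product, mem_Ioc] at hp
  obtain ⟨⟨⟨a1, a2⟩, a3, a4⟩, a5, a6, a7⟩ := hp
  unfold pairs
  simp only [mem_filter, mem_product, mem_Icc]
  refine ⟨⟨⟨⟨by omega, a2⟩, by omega, a4⟩, by omega, by omega, ?_, one_dvd _⟩, ?_⟩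
  · exact (Nat.coprime_primes a5 a6).2 a7
  · exact ((Nat.coprime_of_lt_prime (by omega) (by omega) a5 : Nat.Coprime p.1 q)).symm

/-- UP, from the statement of SN -/
theorem up_q_of (P : ℕ) (hP : 1 ≤ P) (ε : ℝ) (hε : 0 < ε) (hSN : UP_SN (ε / 2)) :
    ∃ C : ℝ, 1 ≤ C ∧
    ∀ (κ s q V : ℕ) (r r' c : ℤ), 1 ≤ s → 10 * s ^ 2 ≤ κ → P ≤ κ → 1 ≤ q → q ≤ κ →
    V * q ≤ 512 * κ ^ 2 * s ^ 2 →
    ∑ p ∈ PP κ, ((fib q P (κ ^ 2 * s / q) (κ ^ 2 * s) r r' c V p.1 p.2).card : ℝ) ≤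
      ((PP κ).card : ℝ) * (512 * (κ : ℝ) ^ 2 * (s : ℝ) ^ 4 / ((q : ℝ) ^ 2 * (P : ℝ) ^ 2)) +
      C * (κ : ℝ) ^ ε * ((κ : ℝ) ^ 4 * s * (1 + √q / s)) := by
  classical
  obtain ⟨C₀, hC₀, hW⟩ := weyl_near
  obtain ⟨C₁, hC₁, hS⟩ := hSN
  obtain ⟨C₂, hC₂, hL⟩ := UP_log (ε / 2) (by linarith)
  have hsC : 1 ≤ √C₀ := Real.one_le_sqrt.2 hC₀
  refine ⟨64 * √C₀ * C₂ * C₁, ?_, ?_⟩
  · have h1 : 1 ≤ √C₀ * C₂ := by nlinarith
    have h2 : 1 ≤ √C₀ * C₂ * C₁ := by nlinarith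
    nlinarith
  intro κ s q V r r' c hs hsκ hPκ hq hqκ hV
  have hsκ' : s ≤ κ := by nlinarith
  have hκ : 1 ≤ κ := hs.trans hsκ'
  set M := κ ^ 2 * s with hM
  set M' := M / q with hM'
  set H := q * κ ^ 2 / (8 * s ^ 2) with hH
  -- sizes
  have hκM' : κ ≤ M' := by
    rw [hM', Nat.le_div_iff_mul_le (by omega), hM]
    calc κ * q ≤ κ * κ := Nat.mul_le_mul_left _ hqκ
      _ = κ ^ 2 * 1 := by ring
      _ ≤ κ ^ 2 * s := Nat.mul_le_mul_left _ hs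
  have hM'1 : 1 ≤ M' := hκ.trans hκM'
  have hqM' : q * M' ≤ M := Nat.mul_div_le M q
  have hMq : M ≤ 2 * q * M' := by
    have h1 : M < q * (M' + 1) := by
      have := Nat.lt_mul_div_succ M (by omega : 0 < q)
      simpa [hM'] using this
    have h2 : q * (M' + 1) ≤ 2 * q * M' := by
      have : q * 1 ≤ q * M' := Nat.mul_le_mul_left _ hM'1
      nlinarith
    omega
  have hM'M : M' ≤ M := Nat.div_le_self _ _
  have hM1 : 1 ≤ M := hM'1.trans hM'M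
  have hs2 : 1 ≤ s ^ 2 := Nat.one_le_pow _ _ hs
  have hκ2 : 100 * s ^ 4 ≤ κ ^ 2 := by
    calc 100 * s ^ 4 = (10 * s ^ 2) ^ 2 := by ring
      _ ≤ κ ^ 2 := Nat.pow_le_pow_left hsκ 2
  have hHs : H * (8 * s ^ 2) ≤ q * κ ^ 2 := Nat.div_mul_le_self _ _
  have hHs' : q * κ ^ 2 ≤ 16 * s ^ 2 * H := by
    have h1 : q * κ ^ 2 < (8 * s ^ 2) * (H + 1) := by
      have := Nat.lt_mul_div_succ (q * κ ^ 2) (by positivity : 0 < 8 * s ^ 2)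
      simpa [hH] using this
    have h2 : 16 * s ^ 2 ≤ q * κ ^ 2 := by
      calc 16 * s ^ 2 ≤ 100 * s ^ 4 := by nlinarith
        _ ≤ 1 * κ ^ 2 := by linarith
        _ ≤ q * κ ^ 2 := Nat.mul_le_mul_right _ hq
    nlinarith
  have hH1 : 1 ≤ H := by
    rw [hH, Nat.le_div_iff_mul_le (by positivity)]
    calc 1 * (8 * s ^ 2) ≤ 100 * s ^ 4 := by nlinarith
      _ ≤ 1 * κ ^ 2 := by linarith
      _ ≤ q * κ ^ 2 := Nat.mul_le_mul_right _ hq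
  have hHV : 4 * H * V ≤ 256 * κ ^ 4 := by
    have h1 : (H * (8 * s ^ 2)) * (V * q) ≤ (q * κ ^ 2) * (512 * κ ^ 2 * s ^ 2) :=
      Nat.mul_le_mul hHs hV
    have h2 : (8 * s ^ 2 * q) * (4 * H * V) ≤ (8 * s ^ 2 * q) * (256 * κ ^ 4) := by
      nlinarith
    exact Nat.le_of_mul_le_mul_left h2 (by positivity)
  -- the residues
  have hres : ∀ p : ℕ × ℕ, ∃ t : ℤ × ℤ × ℤ, 1 ≤ p.1 → 1 ≤ p.2 → Nat.Coprime p.1 p.2 →
      Nat.Coprime q p.1 → ResQ p.1 p.2 q t.1 t.2.1 t.2.2 := by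
    intro p
    by_cases h : 1 ≤ p.1 ∧ 1 ≤ p.2 ∧ Nat.Coprime p.1 p.2 ∧ Nat.Coprime q p.1
    · obtain ⟨h1, h2, h3, h4⟩ := h
      obtain ⟨α, β, γ, hr⟩ := exists_resQ (p.1 : ℤ) p.2 q (by positivity) (by positivity)
        (Nat.isCoprime_iff_coprime.2 h3) (Nat.isCoprime_iff_coprime.2 h4)
      exact ⟨(α, β, γ), fun _ _ _ _ => hr⟩
    · refine ⟨(0, 0, 0), fun h1 h2 h3 h4 => absurd ⟨h1, h2, h3, h4⟩ h⟩
  choose R hR using hres
  -- real versions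
  have hκr : (1 : ℝ) ≤ κ := by exact_mod_cast hκ
  have hsr : (1 : ℝ) ≤ s := by exact_mod_cast hs
  have hqr : (1 : ℝ) ≤ q := by exact_mod_cast hq
  have hPr : (1 : ℝ) ≤ P := by exact_mod_cast hP
  have hHr : (1 : ℝ) ≤ H := by exact_mod_cast hH1
  have hMr : (1 : ℝ) ≤ M := by exact_mod_cast hM1
  have hM'r : (1 : ℝ) ≤ M' := by exact_mod_cast hM'1
  have hMeq : (M : ℝ) = (κ : ℝ) ^ 2 * s := by rw [hM]; push_cast; ring
  have hqM'r : (q : ℝ) * M' ≤ M := by exact_mod_cast hqM'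
  have hHr2 : (q : ℝ) * κ ^ 2 ≤ 16 * s ^ 2 * H := by exact_mod_cast hHs'
  set lg := 1 + Real.log M with hlg
  have hlM : 0 ≤ Real.log M := Real.log_nonneg hMr
  have hlM' : 0 ≤ Real.log M' := Real.log_nonneg hM'r
  have hlMM : Real.log M' ≤ Real.log M :=
    Real.log_le_log (by linarith) (by exact_mod_cast hM'M)
  have hlg1 : 1 ≤ lg := by rw [hlg]; linarith
  have hlgC : lg ≤ C₂ * (κ : ℝ) ^ (ε / 2) := hL κ s M hs hsκ' hM1 le_rfl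
  -- one exponential sum
  have hES : ∀ (a b c : ℝ), ‖ESc M' M P r r' a b c‖ ≤
      √C₀ * lg * (M / √q) * √((nearPts M' M a b c).card : ℝ) := by
    intro a b c
    have h1 := hW M' M P hM'1 hM1 hP r r' a b c
    have h0 : (0 : ℝ) ≤ ((nearPts M' M a b c).card : ℝ) := Nat.cast_nonneg _
    have h2 : C₀ * (1 + Real.log M') * (1 + Real.log M) * M' * M *
        ((nearPts M' M a b c).card : ℝ) ≤
        (√C₀ * lg * (M / √q) * √((nearPts M' M a b c).card : ℝ)) ^ 2 := by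
      have e1 : (√C₀ * lg * (M / √q) * √((nearPts M' M a b c).card : ℝ)) ^ 2 =
          C₀ * lg ^ 2 * (M ^ 2 / q) * ((nearPts M' M a b c).card : ℝ) := by
        rw [mul_pow, mul_pow, mul_pow, div_pow, Real.sq_sqrt (by linarith),
          Real.sq_sqrt (by linarith), Real.sq_sqrt h0]
      rw [e1]
      have e2 : (M' : ℝ) * M ≤ M ^ 2 / q := by
        rw [le_div_iff₀ (by linarith)]; nlinarith
      have e3 : (1 + Real.log M') * (1 + Real.log M) ≤ lg ^ 2 := by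
        rw [sq]
        apply mul_le_mul <;> linarith
      calc C₀ * (1 + Real.log M') * (1 + Real.log M) * M' * M *
            ((nearPts M' M a b c).card : ℝ)
          = C₀ * ((1 + Real.log M') * (1 + Real.log M)) * (M' * M) *
            ((nearPts M' M a b c).card : ℝ) := by ring
        _ ≤ C₀ * lg ^ 2 * (M ^ 2 / q) * ((nearPts M' M a b c).card : ℝ) := by gcongr
    exact (sq_le_sq₀ (norm_nonneg _) (by positivity)).1 (h1.trans h2)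
  -- one pair
  have hone : ∀ p ∈ PP κ, ((fib q P M' M r r' c V p.1 p.2).card : ℝ) ≤
      512 * (κ : ℝ) ^ 2 * (s : ℝ) ^ 4 / ((q : ℝ) ^ 2 * (P : ℝ) ^ 2) +
      4 / H * (√C₀ * lg * (M / √q)) * ∑ h ∈ Icc 1 H, √(nearN M' M R h p) := by
    intro p hp
    have hp' := UP_PP hq hqκ hp
    unfold pairs at hp'
    simp only [mem_filter, mem_product, mem_Icc] at hp'
    obtain ⟨⟨⟨⟨a1, a2⟩, a3, a4⟩, a5, a6, a7, -⟩, a8⟩ := hp'
    have h4V : 4 * H * V ≤ p.1 ^ 3 * p.2 := by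
      refine hHV.trans ?_
      have b1 : 4 * κ ≤ p.1 := by omega
      have b2 : 4 * κ ≤ p.2 := by omega
      calc 256 * κ ^ 4 = (4 * κ) ^ 3 * (4 * κ) := by ring
        _ ≤ p.1 ^ 3 * p.2 := Nat.mul_le_mul (Nat.pow_le_pow_left b1 3) b2
    have hf := fib_up p.1 p.2 M' M P V H q a1 a3 a7 a8 hH1 h4V (R p).1 (R p).2.1 (R p).2.2
      (hR p a1 a3 a7 a8) r r' c
    refine hf.trans ?_
    have hc1 := cls_card_le M' P hP (hPκ.trans hκM') r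
    have hc2 := cls_card_le M P hP ((hPκ.trans hκM').trans hM'M) r'
    have hcc : (((cls M' P r).card * (cls M P r').card : ℕ) : ℝ) ≤
        (4 * M' / P) * (4 * M / P) := by
      push_cast
      exact mul_le_mul hc1 hc2 (Nat.cast_nonneg _) (by positivity)
    have hmain : 2 / (H : ℝ) * ((4 * M' / P) * (4 * M / P)) ≤
        512 * (κ : ℝ) ^ 2 * (s : ℝ) ^ 4 / ((q : ℝ) ^ 2 * (P : ℝ) ^ 2) := by
      have e1 : 2 / (H : ℝ) * ((4 * M' / P) * (4 * M / P)) = 32 * (M' * M) / (H * P ^ 2) := by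
        field_simp; ring
      rw [e1, div_le_div_iff₀ (by positivity) (by positivity)]
      have e2 : (q : ℝ) * (M' * M) ≤ (κ ^ 2 * s) * (κ ^ 2 * s) := by
        rw [← hMeq]; nlinarith
      have e3 : 32 * ((q : ℝ) * (M' * M)) * q ≤ 512 * (κ : ℝ) ^ 2 * s ^ 4 * H := by
        calc 32 * ((q : ℝ) * (M' * M)) * q ≤ 32 * ((κ ^ 2 * s) * (κ ^ 2 * s)) * q := by gcongr
          _ = 32 * ((κ : ℝ) ^ 2 * s ^ 2) * (q * κ ^ 2) := by ring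
          _ ≤ 32 * ((κ : ℝ) ^ 2 * s ^ 2) * (16 * s ^ 2 * H) := by gcongr
          _ = 512 * (κ : ℝ) ^ 2 * s ^ 4 * H := by ring
      calc 32 * ((M' : ℝ) * M) * ((q : ℝ) ^ 2 * (P : ℝ) ^ 2)
          = 32 * ((q : ℝ) * (M' * M)) * q * P ^ 2 := by ring
        _ ≤ 512 * (κ : ℝ) ^ 2 * s ^ 4 * H * P ^ 2 := by gcongr
        _ = 512 * (κ : ℝ) ^ 2 * (s : ℝ) ^ 4 * (H * P ^ 2) := by ring
    have hsum : ∑ h ∈ Ico 1 H, ‖ESc M' M P r r' (h * (R p).1 / ((p.1 : ℝ) ^ 3 * p.2))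
        (h * (R p).2.1 / ((p.1 : ℝ) ^ 3 * p.2)) (h * (R p).2.2 / ((p.1 : ℝ) ^ 3 * p.2))‖ ≤
        (√C₀ * lg * (M / √q)) * ∑ h ∈ Icc 1 H, √(nearN M' M R h p) := by
      rw [mul_sum]
      calc _ ≤ ∑ h ∈ Ico 1 H, √C₀ * lg * (M / √q) * √(nearN M' M R h p) :=
            sum_le_sum (fun h _ => hES _ _ _)
        _ ≤ _ := by
            refine sum_le_sum_of_subset_of_nonneg ?_ (fun _ _ _ => by positivity)
            intro h hh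
            rw [mem_Ico] at hh; rw [mem_Icc]; omega
    have hH2 : (0 : ℝ) ≤ 2 / H := by positivity
    calc _ ≤ 2 / (H : ℝ) * ((4 * M' / P) * (4 * M / P) +
          2 * ((√C₀ * lg * (M / √q)) * ∑ h ∈ Icc 1 H, √(nearN M' M R h p))) := by
          gcongr
      _ = 2 / (H : ℝ) * ((4 * M' / P) * (4 * M / P)) +
          4 / H * (√C₀ * lg * (M / √q)) * ∑ h ∈ Icc 1 H, √(nearN M' M R h p) := by ring
      _ ≤ _ := by gcongr
  -- sum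
  have hSNs := hS κ s q H M' hs hsκ' hq hqκ hM'1 hqM' hMq (by nlinarith) R hR
  have hsub : ∑ p ∈ PP κ, ∑ h ∈ Icc 1 H, √(nearN M' M R h p) ≤
      ∑ p ∈ (pairs (8 * κ) (8 * κ) 1).filter (fun p => Nat.Coprime q p.1),
        ∑ h ∈ Icc 1 H, √(nearN M' M R h p) :=
    sum_le_sum_of_subset_of_nonneg (fun p hp => UP_PP hq hqκ hp)
      (fun _ _ _ => sum_nonneg (fun _ _ => Real.sqrt_nonneg _))
  refine (sum_le_sum hone).trans ?_
  rw [sum_add_distrib, sum_const, nsmul_eq_mul, ← mul_sum]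
  refine add_le_add le_rfl ?_
  have h1 := hsub.trans hSNs
  have h2 : 4 / (H : ℝ) ≤ 64 * s ^ 2 / (q * κ ^ 2) := by
    rw [div_le_div_iff₀ (by positivity) (by positivity)]
    nlinarith
  have hq32 : (q : ℝ) ^ (3 / 2 : ℝ) = q * √q := by
    rw [show (3 / 2 : ℝ) = 1 + 1 / 2 by norm_num, Real.rpow_add (by linarith), Real.rpow_one,
      Real.sqrt_eq_rpow]
  have hε2 : (κ : ℝ) ^ ε = (κ : ℝ) ^ (ε / 2) * (κ : ℝ) ^ (ε / 2) := by
    rw [← Real.rpow_add (by linarith)]; congr 1; ring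
  have hsq : 0 < √(q : ℝ) := Real.sqrt_pos.2 (by linarith)
  calc 4 / (H : ℝ) * (√C₀ * lg * (M / √q)) * ∑ p ∈ PP κ, ∑ h ∈ Icc 1 H, √(nearN M' M R h p)
      ≤ (64 * s ^ 2 / (q * κ ^ 2)) * (√C₀ * (C₂ * (κ : ℝ) ^ (ε / 2)) * (M / √q)) *
        (C₁ * (κ : ℝ) ^ (ε / 2) * ((q : ℝ) ^ (3 / 2 : ℝ) * (κ : ℝ) ^ 4 / (s : ℝ) ^ 2 *
          (1 + √q / s))) := by gcongr
    _ = 64 * √C₀ * C₂ * C₁ * (κ : ℝ) ^ ε * ((κ : ℝ) ^ 4 * s * (1 + √q / s)) := by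
        rw [hMeq, hq32, hε2]
        field_simp

end Pool.Agent.helper28.LT
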