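import Pool.Agent.helper14.LT.UP
import Pool.Agent.helper62.LT.SN

set_option autoImplicit false

namespace Pool.Agent.helper28.LT

open Finset Pool.Agent.helper3.FT Pool.Agent.helper47.RA

/-- UP -/
theorem up_q (P : ℕ) (hP : 1 ≤ P) (ε : ℝ) (hε : 0 < ε) : ∃ C : ℝ, 1 ≤ C ∧
    ∀ (κ s q V : ℕ) (r r' c : ℤ), 1 ≤ s → 10 * s ^ 2 ≤ κ → P ≤ κ → 1 ≤ q → q ≤ κ →
    V * q ≤ 512 * κ ^ 2 * s ^ 2 →
    ∑ p ∈ PP κ, ((fib q P (κ ^ 2 * s / q) (κ ^ 2 * s) r r' c V p.1 p.2).card : ℝ) ≤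
      ((PP κ).card : ℝ) * (512 * (κ : ℝ) ^ 2 * (s : ℝ) ^ 4 / ((q : ℝ) ^ 2 * (P : ℝ) ^ 2)) +
      C * (κ : ℝ) ^ ε * ((κ : ℝ) ^ 4 * s * (1 + √q / s)) :=
  up_q_of P hP ε hε (sum_near (ε / 2) (by linarith))

end Pool.Agent.helper28.LT
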